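import Pool.Agent.H12.KSJ.Targets

/-!
# The residue field at a generization is a field of fractions (row FRAC)
-/

open CategoryTheory TopologicalSpace Opposite AlgebraicGeometry Limits
open Pool.Agent.H62.MK Pool.Agent.H84.KEW Pool.Agent.H19.KN
open Pool.Agent.H17.KW (kap Pts entry column dFam D dD Gersten topSh KSh redSh thick thickι Fsh AbSh
  cycK)
open Pool.Agent.H12.KG (Sp GenSp kA stA rho projStr)

universe u

namespace Pool.Agent.H81.KSJ

open Pool.Agent.H12.KSJ

theorem rho_germ {X : Scheme.{u}} {v y : X} (h : v ⤳ y) {U : X.Opens} (hy : y ∈ U) (hv : v ∈ U)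
    (a : Γ(X, U)) :
    rho h ((X.presheaf.germ U y hy).hom a) = (X.residue v).hom ((X.presheaf.germ U v hv).hom a) := by
  have e : X.presheaf.germ U y hy ≫ X.presheaf.stalkSpecializes h = X.presheaf.germ U v hv :=
    X.presheaf.germ_stalkSpecializes hy h
  rw [← e]
  rfl

theorem pf_FRAC : T_FRAC.{u} := by
  intro X v y h z
  obtain ⟨s, rfl⟩ := X.residue_surjective v z
  obtain ⟨U, hU, hy, -⟩ := exists_isAffineOpen_mem_and_subset (x := y) (U := (⊤ : X.Opens)) trivial
  have hv : v ∈ U := h.mem_open U.2 hy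
  let al : Algebra Γ(X, U) (X.presheaf.stalk v) :=
    TopCat.Presheaf.algebra_section_stalk X.presheaf ⟨v, hv⟩
  have hl : IsLocalization.AtPrime (X.presheaf.stalk v) (hU.primeIdealOf ⟨v, hv⟩).asIdeal :=
    hU.isLocalization_stalk ⟨v, hv⟩
  obtain ⟨⟨a, b⟩, hab⟩ := IsLocalization.surj (hU.primeIdealOf ⟨v, hv⟩).asIdeal.primeCompl s
  have hb : IsUnit ((X.presheaf.germ U v hv).hom (b : Γ(X, U))) :=
    IsLocalization.map_units (X.presheaf.stalk v) b
  refine ⟨(X.presheaf.germ U y hy).hom a, (X.presheaf.germ U y hy).hom b, ?_, ?_⟩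
  · rw [rho_germ h hy hv]
    exact (hb.map (X.residue v).hom).ne_zero
  · rw [rho_germ h hy hv, rho_germ h hy hv]
    have e := congrArg (X.residue v).hom hab
    rw [map_mul] at e
    exact e

end Pool.Agent.H81.KSJ
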